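import Pool.Agent.Majorant.Near

set_option autoImplicit false

open Finset

namespace Pool.Agent.Majorant

/-- exponential sum over a progression -/
noncomputable def EE (P R a : ℕ) (s : ℝ) : ℂ :=
  ∑ n ∈ (Ioc P (2 * P)).filter (fun n => n % R = a % R), ee (n * s)

lemma rho_mul (s : Finset ℕ) (Q n : ℕ) (t : ℝ) :
    (rho s Q n : ℂ) * ee (n * t) = 1 / (GG s Q : ℂ) ^ 2 *
      ∑ z ∈ XX s Q ×ˢ XX s Q, ((gm z.1 : ℂ) * (gm z.2 : ℂ)) * ee (n * (th z.1 - th z.2 + t)) := by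
  have h1 : ((‖HH s Q n‖ ^ 2 : ℝ) : ℂ) = HH s Q n * (starRingEnd ℂ) (HH s Q n) := by
    rw [Complex.mul_conj']; push_cast; rfl
  have h2 : (starRingEnd ℂ) (HH s Q n) = ∑ y ∈ XX s Q, (gm y : ℂ) * ee (n * (-th y)) := by
    unfold HH
    rw [map_sum]
    apply Finset.sum_congr rfl
    intro y _
    rw [map_mul, Complex.conj_ofReal, conj_ee]
    congr 2
    ring
  have h3 : ((‖HH s Q n‖ ^ 2 : ℝ) : ℂ) * ee (n * t) =
      ∑ z ∈ XX s Q ×ˢ XX s Q, ((gm z.1 : ℂ) * (gm z.2 : ℂ)) * ee (n * (th z.1 - th z.2 + t)) := by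
    rw [h1, h2]
    unfold HH
    rw [Finset.sum_mul_sum, Finset.sum_product, Finset.sum_mul]
    apply Finset.sum_congr rfl
    intro x _
    rw [Finset.sum_mul]
    apply Finset.sum_congr rfl
    intro y _
    have h4 : ee ((n:ℝ) * (th x - th y + t)) = ee (n * th x) * ee (n * (-th y)) * ee (n * t) := by
      rw [← ee_add, ← ee_add]
      congr 1
      ring
    simp only
    rw [h4]
    ring
  rw [← h3]
  unfold rho
  push_cast
  ring

lemma expand (s : Finset ℕ) (Q P R a : ℕ) (t : ℝ) :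
    ∑ n ∈ (Ioc P (2 * P)).filter (fun n => n % R = a % R), (rho s Q n : ℂ) * ee (n * t) =
      1 / (GG s Q : ℂ) ^ 2 *
      ∑ z ∈ XX s Q ×ˢ XX s Q, ((gm z.1 : ℂ) * (gm z.2 : ℂ)) * EE P R a (th z.1 - th z.2 + t) := by
  simp_rw [rho_mul]
  rw [← Finset.mul_sum, Finset.sum_comm]
  congr 1
  apply Finset.sum_congr rfl
  intro z _
  rw [← Finset.mul_sum]
  rfl

lemma abs_gm {s : Finset ℕ} {Q : ℕ} {x : Σ _ : ℕ, ℕ} (h : x ∈ XX s Q) :
    |gm x| = 1 / (Nat.totient x.1 : ℝ) := by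
  have h1 : |ArithmeticFunction.moebius x.1| = 1 :=
    ArithmeticFunction.abs_moebius_eq_one_of_squarefree (mem_SQ.1 (mem_XX.1 h).1).2.1
  have h2 : |(ArithmeticFunction.moebius x.1 : ℝ)| = 1 := by exact_mod_cast h1
  unfold gm
  rw [abs_div, h2, abs_of_nonneg (by positivity : (0:ℝ) ≤ (Nat.totient x.1 : ℝ))]

lemma sum_XX_fst (s : Finset ℕ) (Q : ℕ) (f : ℕ → ℝ) :
    ∑ x ∈ XX s Q, f x.1 = ∑ q ∈ SQ s Q, (Nat.totient q : ℝ) * f q := by
  unfold XX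
  rw [Finset.sum_sigma]
  apply Finset.sum_congr rfl
  intro q _
  simp only
  rw [Finset.sum_const, nsmul_eq_mul, Nat.totient_eq_card_coprime]

lemma sum_abs_gm (s : Finset ℕ) (Q : ℕ) : ∑ x ∈ XX s Q, |gm x| ≤ Q := by
  rw [Finset.sum_congr rfl (fun x hx => abs_gm hx), sum_XX_fst s Q (fun q => 1 / (Nat.totient q : ℝ))]
  have h1 : ∀ q ∈ SQ s Q, (Nat.totient q : ℝ) * (1 / (Nat.totient q : ℝ)) = 1 := by
    intro q hq
    have := totient_pos_of_mem hq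
    field_simp
  rw [Finset.sum_congr rfl h1, Finset.sum_const, nsmul_eq_mul, mul_one]
  have h2 : (SQ s Q).card ≤ Q := by
    unfold SQ
    refine (Finset.card_filter_le _ _).trans ?_
    simp
  exact_mod_cast h2

lemma sum_sq_gm (s : Finset ℕ) (Q : ℕ) : ∑ x ∈ XX s Q, |gm x| ^ 2 = GG s Q := by
  have h0 : ∀ x ∈ XX s Q, |gm x| ^ 2 = (1 / (Nat.totient x.1 : ℝ)) ^ 2 := fun x hx => by rw [abs_gm hx]
  rw [Finset.sum_congr rfl h0, sum_XX_fst s Q (fun q => (1 / (Nat.totient q : ℝ)) ^ 2)]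
  unfold GG
  apply Finset.sum_congr rfl
  intro q hq
  have := totient_pos_of_mem hq
  field_simp

lemma sum_sq_gm_dvd (s : Finset ℕ) (Q p : ℕ) (hp : p.Prime) :
    ∑ x ∈ (XX s Q).filter (fun x => p ∣ x.1), |gm x| ^ 2 ≤ 1 / ((p:ℝ) - 1) * GG s Q := by
  have hp2 : (2:ℝ) ≤ p := by exact_mod_cast hp.two_le
  have h0 : ∀ x ∈ XX s Q, (if p ∣ x.1 then |gm x| ^ 2 else 0) =
      (if p ∣ x.1 then (1 / (Nat.totient x.1 : ℝ)) ^ 2 else 0) := fun x hx => by rw [abs_gm hx]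
  rw [Finset.sum_filter, Finset.sum_congr rfl h0,
    sum_XX_fst s Q (fun q => if p ∣ q then (1 / (Nat.totient q : ℝ)) ^ 2 else 0)]
  have h1 : ∀ q ∈ SQ s Q, (Nat.totient q : ℝ) * (if p ∣ q then (1 / (Nat.totient q : ℝ)) ^ 2 else 0) =
      if p ∣ q then 1 / (Nat.totient q : ℝ) else 0 := by
    intro q hq
    have := totient_pos_of_mem hq
    split_ifs
    · field_simp
    · ring
  rw [Finset.sum_congr rfl h1, ← Finset.sum_filter]
  refine (sum_dvd_le s Q p hp).trans ?_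
  have h2 : ∑ q ∈ (SQ s Q).filter (fun q => ¬ p ∣ q), 1 / (Nat.totient q : ℝ) ≤ GG s Q := by
    apply Finset.sum_le_sum_of_subset_of_nonneg (Finset.filter_subset _ _)
    intro _ _ _
    positivity
  have h3 : 0 ≤ 1 / ((p:ℝ) - 1) := by
    have : 0 < (p:ℝ) - 1 := by linarith
    positivity
  exact mul_le_mul_of_nonneg_left h2 h3

open Classical in
/-- near pairs -/
noncomputable def NN (R Q : ℕ) (t : ℝ) : Finset ((Σ _ : ℕ, ℕ) × (Σ _ : ℕ, ℕ)) :=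
  (XX R.primeFactors Q ×ˢ XX R.primeFactors Q).filter (near R Q t)

lemma mem_NN {R Q : ℕ} {t : ℝ} {z : (Σ _ : ℕ, ℕ) × (Σ _ : ℕ, ℕ)} :
    z ∈ NN R Q t ↔ (z.1 ∈ XX R.primeFactors Q ∧ z.2 ∈ XX R.primeFactors Q) ∧ near R Q t z := by
  classical
  unfold NN
  rw [mem_filter, mem_product]

lemma core {R Q P a : ℕ} (hR : 0 < R) (hQ : 1 ≤ Q) (t B : ℝ)
    (hB : ∑ z ∈ NN R Q t, |gm z.1| * |gm z.2| * ‖EE P R a (th z.1 - th z.2 + t)‖ ≤ B) :
    ‖∑ n ∈ (Ioc P (2 * P)).filter (fun n => n % R = a % R),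
      (rho R.primeFactors Q n : ℂ) * ee (n * t)‖ ≤
      B / (GG R.primeFactors Q) ^ 2 + (Q:ℝ) ^ 6 := by
  classical
  set s := R.primeFactors with hs
  have hG : 1 ≤ GG s Q := one_le_GG s (fun p hp => Nat.prime_of_mem_primeFactors hp) Q hQ
  have hQ0 : (0:ℝ) < Q := by exact_mod_cast hQ
  rw [expand, norm_mul]
  have h1 : ‖(1 / (GG s Q : ℂ) ^ 2)‖ = 1 / (GG s Q) ^ 2 := by
    rw [norm_div, norm_one, norm_pow, Complex.norm_real, Real.norm_eq_abs, sq_abs]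
  rw [h1]
  have h2 : ‖∑ z ∈ XX s Q ×ˢ XX s Q, ((gm z.1 : ℂ) * (gm z.2 : ℂ)) * EE P R a (th z.1 - th z.2 + t)‖ ≤
      ∑ z ∈ XX s Q ×ˢ XX s Q, |gm z.1| * |gm z.2| * ‖EE P R a (th z.1 - th z.2 + t)‖ := by
    refine (norm_sum_le _ _).trans (le_of_eq ?_)
    apply Finset.sum_congr rfl
    intro z _
    rw [norm_mul, norm_mul, Complex.norm_real, Complex.norm_real, Real.norm_eq_abs, Real.norm_eq_abs]
  have h3 : ∑ z ∈ XX s Q ×ˢ XX s Q, |gm z.1| * |gm z.2| * ‖EE P R a (th z.1 - th z.2 + t)‖ =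
      ∑ z ∈ NN R Q t, |gm z.1| * |gm z.2| * ‖EE P R a (th z.1 - th z.2 + t)‖ +
      ∑ z ∈ (XX s Q ×ˢ XX s Q).filter (fun z => ¬ near R Q t z),
        |gm z.1| * |gm z.2| * ‖EE P R a (th z.1 - th z.2 + t)‖ := by
    rw [← Finset.sum_filter_add_sum_filter_not (XX s Q ×ˢ XX s Q) (near R Q t)]
    congr 1
  have h4 : ∑ z ∈ (XX s Q ×ˢ XX s Q).filter (fun z => ¬ near R Q t z),
        |gm z.1| * |gm z.2| * ‖EE P R a (th z.1 - th z.2 + t)‖ ≤ (Q:ℝ) ^ 6 := by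
    calc ∑ z ∈ (XX s Q ×ˢ XX s Q).filter (fun z => ¬ near R Q t z),
          |gm z.1| * |gm z.2| * ‖EE P R a (th z.1 - th z.2 + t)‖
        ≤ ∑ z ∈ (XX s Q ×ˢ XX s Q).filter (fun z => ¬ near R Q t z),
          |gm z.1| * |gm z.2| * (Q:ℝ) ^ 4 := by
          apply Finset.sum_le_sum
          intro z hz
          have hz2 := (mem_filter.1 hz).2
          unfold near at hz2
          push Not at hz2
          apply mul_le_mul_of_nonneg_left _ (by positivity)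
          have h5 := norm_sum_ap_le P R a hR (th z.1 - th z.2 + t) (1 / (2 * (Q:ℝ) ^ 4))
            (by positivity) hz2
          refine h5.trans (le_of_eq ?_)
          field_simp
      _ ≤ ∑ z ∈ XX s Q ×ˢ XX s Q, |gm z.1| * |gm z.2| * (Q:ℝ) ^ 4 := by
          apply Finset.sum_le_sum_of_subset_of_nonneg (Finset.filter_subset _ _)
          intro _ _ _
          positivity
      _ = (∑ x ∈ XX s Q, |gm x|) * (∑ x ∈ XX s Q, |gm x|) * (Q:ℝ) ^ 4 := by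
          rw [← Finset.sum_mul, Finset.sum_mul_sum, Finset.sum_product]
      _ ≤ (Q * Q) * (Q:ℝ) ^ 4 := by
          have h6 := sum_abs_gm s Q
          have h7 : 0 ≤ ∑ x ∈ XX s Q, |gm x| := Finset.sum_nonneg (fun _ _ => abs_nonneg _)
          apply mul_le_mul_of_nonneg_right _ (by positivity)
          exact mul_le_mul h6 h6 h7 hQ0.le
      _ = (Q:ℝ) ^ 6 := by ring
  have hG2 : 1 ≤ (GG s Q) ^ 2 := one_le_pow₀ hG
  have hG0 : 0 < (GG s Q) ^ 2 := by linarith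
  calc 1 / (GG s Q) ^ 2 * ‖∑ z ∈ XX s Q ×ˢ XX s Q,
          ((gm z.1 : ℂ) * (gm z.2 : ℂ)) * EE P R a (th z.1 - th z.2 + t)‖
      ≤ 1 / (GG s Q) ^ 2 * (B + (Q:ℝ) ^ 6) := by
        apply mul_le_mul_of_nonneg_left _ (by positivity)
        linarith
    _ = B / (GG s Q) ^ 2 + 1 / (GG s Q) ^ 2 * (Q:ℝ) ^ 6 := by ring
    _ ≤ _ := by
        have h8 : 1 / (GG s Q) ^ 2 ≤ 1 := by rw [div_le_one hG0]; exact hG2
        have h9 : 1 / (GG s Q) ^ 2 * (Q:ℝ) ^ 6 ≤ 1 * (Q:ℝ) ^ 6 :=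
          mul_le_mul_of_nonneg_right h8 (by positivity)
        linarith

lemma NN_inj1 {R Q : ℕ} (hR : 0 < R) {t : ℝ} : ∀ z ∈ NN R Q t, ∀ z' ∈ NN R Q t, z.1 = z'.1 → z = z' := by
  intro z hz z' hz' h
  obtain ⟨⟨h1, h2⟩, h3⟩ := mem_NN.1 hz
  obtain ⟨⟨h1', h2'⟩, h3'⟩ := mem_NN.1 hz'
  obtain ⟨j, hj⟩ := near_diff hR h1 h2 h1' h2' h3 h3'
  have h4 : z'.2 = z.2 := by
    apply th_inj h2' h2 (j := j)
    rw [← hj, h]; ring
  exact Prod.ext h h4.symm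

lemma NN_inj2 {R Q : ℕ} (hR : 0 < R) {t : ℝ} : ∀ z ∈ NN R Q t, ∀ z' ∈ NN R Q t, z.2 = z'.2 → z = z' := by
  intro z hz z' hz' h
  obtain ⟨⟨h1, h2⟩, h3⟩ := mem_NN.1 hz
  obtain ⟨⟨h1', h2'⟩, h3'⟩ := mem_NN.1 hz'
  obtain ⟨j, hj⟩ := near_diff hR h1 h2 h1' h2' h3 h3'
  have h4 : z.1 = z'.1 := by
    apply th_inj h1 h1' (j := j)
    rw [← hj, h]; ring
  exact Prod.ext h4 h

lemma norm_EE_le (P R a : ℕ) (hR : 0 < R) (s : ℝ) : ‖EE P R a s‖ ≤ P / R + 1 :=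
  norm_sum_ap_le_card P R a hR s

/-- general near bound -/
lemma near_gen {R Q P a : ℕ} (hR : 0 < R) (t : ℝ) :
    ∑ z ∈ NN R Q t, |gm z.1| * |gm z.2| * ‖EE P R a (th z.1 - th z.2 + t)‖ ≤
      ((P:ℝ) / R + 1) * GG R.primeFactors Q := by
  classical
  have h1 := sum_mul_le (XX R.primeFactors Q) (NN R Q t) (fun x => |gm x|)
    (fun z hz => (mem_NN.1 hz).1.1) (fun z hz => (mem_NN.1 hz).1.2) (NN_inj1 hR) (NN_inj2 hR)
  rw [sum_sq_gm] at h1
  calc ∑ z ∈ NN R Q t, |gm z.1| * |gm z.2| * ‖EE P R a (th z.1 - th z.2 + t)‖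
      ≤ ∑ z ∈ NN R Q t, |gm z.1| * |gm z.2| * ((P:ℝ) / R + 1) := by
        apply Finset.sum_le_sum
        intro z _
        exact mul_le_mul_of_nonneg_left (norm_EE_le P R a hR _) (by positivity)
    _ = ((P:ℝ) / R + 1) * ∑ z ∈ NN R Q t, |gm z.1| * |gm z.2| := by
        rw [← Finset.sum_mul, mul_comm]
    _ ≤ _ := mul_le_mul_of_nonneg_left h1 (by positivity)

/-- a prime dividing one of the moduli of every near pair -/
lemma exists_prime {R Q : ℕ} (hR : 0 < R) {t : ℝ} {z0 : (Σ _ : ℕ, ℕ) × (Σ _ : ℕ, ℕ)}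
    (hz0 : z0 ∈ NN R Q t) (hno : ¬ ∃ j : ℤ, th z0.1 - th z0.2 = j) :
    ∃ p : ℕ, p.Prime ∧ ¬ p ∣ R ∧ ∀ z ∈ NN R Q t, p ∣ z.1.1 ∨ p ∣ z.2.1 := by
  obtain ⟨⟨h1, h2⟩, h3⟩ := mem_NN.1 hz0
  have p1 := pos_of_mem h1
  have p2 := pos_of_mem h2
  set c0 : ℤ := (z0.1.2:ℤ) * z0.2.1 - z0.2.2 * z0.1.1 with hc0
  set D0 : ℕ := z0.1.1 * z0.2.1 with hD0
  have e0 : th z0.1 - th z0.2 = (c0:ℝ) / D0 := th_sub _ _ p1 p2
  set b : ℚ := (c0:ℚ) / D0 with hb
  have hbr : ((b:ℚ):ℝ) = th z0.1 - th z0.2 := by rw [e0, hb]; push_cast; rfl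
  have hden : ∀ (c : ℤ) (D : ℕ), 0 < D → (b:ℚ) = (c:ℚ) / D → b.den ∣ D := by
    intro c D _ h
    have h4 := Rat.den_dvd c D
    rw [Rat.divInt_eq_div] at h4
    have h5 : ((b.den : ℕ) : ℤ) ∣ (D : ℤ) := by
      rw [h]
      exact_mod_cast h4
    exact_mod_cast h5
  have hall : ∀ z ∈ NN R Q t, b.den ∣ z.1.1 * z.2.1 := by
    intro z hz
    obtain ⟨⟨h1', h2'⟩, h3'⟩ := mem_NN.1 hz
    have p1' := pos_of_mem h1'
    have p2' := pos_of_mem h2'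
    obtain ⟨j, hj⟩ := near_diff hR h1 h2 h1' h2' h3 h3'
    rw [th_sub _ _ p1' p2', ← hbr] at hj
    set c : ℤ := (z.1.2:ℤ) * z.2.1 - z.2.2 * z.1.1 with hc
    have hD : 0 < z.1.1 * z.2.1 := Nat.mul_pos p1' p2'
    apply hden (c + j * (z.1.1 * z.2.1 : ℕ)) _ hD
    have hD' : ((z.1.1 * z.2.1 : ℕ) : ℚ) ≠ 0 := by exact_mod_cast hD.ne'
    have h6 : b = (c:ℚ) / ((z.1.1 * z.2.1 : ℕ) : ℚ) + j := by
      have h7 : ((b:ℚ):ℝ) = (((c:ℚ) / ((z.1.1 * z.2.1 : ℕ) : ℚ) + j : ℚ) : ℝ) := by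
        push_cast
        push_cast at hj
        linarith
      exact_mod_cast h7
    rw [h6]
    rw [div_add' _ _ _ hD']
    push_cast
    rfl
  have hne : b.den ≠ 1 := by
    intro hd
    apply hno
    refine ⟨b.num, ?_⟩
    rw [← hbr]
    have := (Rat.den_eq_one_iff b).1 hd
    conv_lhs => rw [← this]
    push_cast
    rfl
  refine ⟨b.den.minFac, Nat.minFac_prime hne, ?_, ?_⟩
  · intro hpR
    have h4 : b.den.minFac ∣ D0 := (Nat.minFac_dvd _).trans (hall z0 hz0)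
    have h5 : Nat.Coprime D0 R :=
      Nat.Coprime.mul_left (coprime_of_mem (mem_XX.1 h1).1 hR) (coprime_of_mem (mem_XX.1 h2).1 hR)
    exact Nat.not_coprime_of_dvd_of_dvd (Nat.minFac_prime hne).one_lt h4 hpR h5
  · intro z hz
    have h4 : b.den.minFac ∣ z.1.1 * z.2.1 := (Nat.minFac_dvd _).trans (hall z hz)
    exact (Nat.Prime.dvd_mul (Nat.minFac_prime hne)).1 h4

/-- refined near bound -/
lemma near_ref {R Q P a : ℕ} (hR : 0 < R) (t : ℝ) (m : ℕ) (hm : 0 < m)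
    (hw : ∀ p, p.Prime → p ≤ m ^ 2 → p ∣ R) (e0 : ℝ)
    (he0 : ‖EE P R a t‖ ≤ e0) :
    ∑ z ∈ NN R Q t, |gm z.1| * |gm z.2| * ‖EE P R a (th z.1 - th z.2 + t)‖ ≤
      (((P:ℝ) / R + 1) * (2 / m) + e0) * GG R.primeFactors Q := by
  classical
  have hG0 : 0 ≤ GG R.primeFactors Q := GG_nonneg _ _
  have he00 : 0 ≤ e0 := (norm_nonneg _).trans he0
  have hm0 : (0:ℝ) < m := by exact_mod_cast hm
  have hrest : 0 ≤ ((P:ℝ) / R + 1) * (2 / m) := by positivity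
  rcases (NN R Q t).eq_empty_or_nonempty with hemp | ⟨z0, hz0⟩
  · rw [hemp, Finset.sum_empty]
    positivity
  by_cases hint : ∃ j : ℤ, th z0.1 - th z0.2 = j
  · -- diagonal case
    obtain ⟨j0, hj0⟩ := hint
    have hdiag : ∀ z ∈ NN R Q t, z.1 = z.2 := by
      intro z hz
      obtain ⟨⟨h1, h2⟩, h3⟩ := mem_NN.1 hz
      obtain ⟨⟨h1', h2'⟩, h3'⟩ := mem_NN.1 hz0
      obtain ⟨j, hj⟩ := near_diff hR h1 h2 h1' h2' h3 h3'
      apply th_inj h1 h2 (j := j + j0)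
      push_cast
      rw [← hj, ← hj0]; ring
    have h1 := sum_mul_le (XX R.primeFactors Q) (NN R Q t) (fun x => |gm x|)
      (fun z hz => (mem_NN.1 hz).1.1) (fun z hz => (mem_NN.1 hz).1.2) (NN_inj1 hR) (NN_inj2 hR)
    rw [sum_sq_gm] at h1
    calc ∑ z ∈ NN R Q t, |gm z.1| * |gm z.2| * ‖EE P R a (th z.1 - th z.2 + t)‖
        ≤ ∑ z ∈ NN R Q t, |gm z.1| * |gm z.2| * e0 := by
          apply Finset.sum_le_sum
          intro z hz
          apply mul_le_mul_of_nonneg_left _ (by positivity)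
          rw [hdiag z hz, sub_self, zero_add]
          exact he0
      _ = e0 * ∑ z ∈ NN R Q t, |gm z.1| * |gm z.2| := by
          rw [← Finset.sum_mul, mul_comm]
      _ ≤ e0 * GG R.primeFactors Q := mul_le_mul_of_nonneg_left h1 he00
      _ ≤ _ := by
          apply mul_le_mul_of_nonneg_right _ hG0
          linarith
  · obtain ⟨p, hp, hpR, hpall⟩ := exists_prime hR hz0 hint
    have hpm : m ^ 2 < p := by
      by_contra hc
      push Not at hc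
      exact hpR (hw p hp hc)
    have hpm' : (m:ℝ) ^ 2 ≤ (p:ℝ) - 1 := by
      have : m ^ 2 + 1 ≤ p := hpm
      have h2 : ((m ^ 2 + 1 : ℕ) : ℝ) ≤ p := by exact_mod_cast this
      push_cast at h2
      linarith
    have h1 := sum_mul_le' (XX R.primeFactors Q) (NN R Q t) (fun x => |gm x|)
      (fun z hz => (mem_NN.1 hz).1.1) (fun z hz => (mem_NN.1 hz).1.2) (NN_inj1 hR) (NN_inj2 hR)
      (fun x => p ∣ x.1) hpall m hm0
    rw [sum_sq_gm] at h1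
    have h2 := sum_sq_gm_dvd R.primeFactors Q p hp
    have h3 : (m:ℝ) * (1 / ((p:ℝ) - 1) * GG R.primeFactors Q) ≤ 1 / m * GG R.primeFactors Q := by
      have hp1 : 0 < (p:ℝ) - 1 := lt_of_lt_of_le (by positivity) hpm'
      have h4 : (m:ℝ) * (1 / ((p:ℝ) - 1)) ≤ 1 / m := by
        rw [mul_one_div, div_le_div_iff₀ hp1 hm0]
        nlinarith
      calc (m:ℝ) * (1 / ((p:ℝ) - 1) * GG R.primeFactors Q)
          = ((m:ℝ) * (1 / ((p:ℝ) - 1))) * GG R.primeFactors Q := by ring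
        _ ≤ _ := mul_le_mul_of_nonneg_right h4 hG0
    have h5 : ∑ z ∈ NN R Q t, |gm z.1| * |gm z.2| ≤ 2 / m * GG R.primeFactors Q := by
      have h6 : (m:ℝ) * ∑ x ∈ (XX R.primeFactors Q).filter (fun x => p ∣ x.1), |gm x| ^ 2 ≤
          m * (1 / ((p:ℝ) - 1) * GG R.primeFactors Q) := mul_le_mul_of_nonneg_left h2 hm0.le
      have h7 : 2 / (m:ℝ) * GG R.primeFactors Q = 1 / m * GG R.primeFactors Q + 1 / m * GG R.primeFactors Q := by
        ring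
      rw [h7]
      linarith
    calc ∑ z ∈ NN R Q t, |gm z.1| * |gm z.2| * ‖EE P R a (th z.1 - th z.2 + t)‖
        ≤ ∑ z ∈ NN R Q t, |gm z.1| * |gm z.2| * ((P:ℝ) / R + 1) := by
          apply Finset.sum_le_sum
          intro z _
          exact mul_le_mul_of_nonneg_left (norm_EE_le P R a hR _) (by positivity)
      _ = ((P:ℝ) / R + 1) * ∑ z ∈ NN R Q t, |gm z.1| * |gm z.2| := by
          rw [← Finset.sum_mul, mul_comm]
      _ ≤ ((P:ℝ) / R + 1) * (2 / m * GG R.primeFactors Q) :=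
          mul_le_mul_of_nonneg_left h5 (by positivity)
      _ = (((P:ℝ) / R + 1) * (2 / m)) * GG R.primeFactors Q := by ring
      _ ≤ _ := by
          apply mul_le_mul_of_nonneg_right _ hG0
          linarith

end Pool.Agent.Majorant
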