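import Mathlib

set_option autoImplicit false

open Finset

namespace Pool.Agent.Majorant

/-- `e(x) = exp(2πix)`. -/
noncomputable def ee (x : ℝ) : ℂ := Complex.exp (2 * Real.pi * x * Complex.I)

lemma ee_add (x y : ℝ) : ee (x + y) = ee x * ee y := by
  unfold ee; rw [← Complex.exp_add]; congr 1; push_cast; ring

lemma ee_zero : ee 0 = 1 := by simp [ee]

lemma ee_int (k : ℤ) : ee k = 1 := by
  unfold ee
  rw [Complex.exp_eq_one_iff]
  exact ⟨k, by push_cast; ring⟩

lemma ee_add_int (x : ℝ) (k : ℤ) : ee (x + k) = ee x := by rw [ee_add, ee_int, mul_one]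

lemma norm_ee (x : ℝ) : ‖ee x‖ = 1 := by
  unfold ee
  rw [show (2 * (Real.pi:ℂ) * (x:ℂ) * Complex.I) = ((2 * Real.pi * x : ℝ) : ℂ) * Complex.I by push_cast; ring]
  exact Complex.norm_exp_ofReal_mul_I _

lemma ee_nat_mul (n : ℕ) (x : ℝ) : ee (n * x) = ee x ^ n := by
  unfold ee; rw [← Complex.exp_nat_mul]; congr 1; push_cast; ring

lemma conj_ee (x : ℝ) : (starRingEnd ℂ) (ee x) = ee (-x) := by
  unfold ee
  rw [← Complex.exp_conj]
  congr 1
  simp only [map_mul, Complex.conj_ofReal, Complex.conj_I, Complex.ofReal_neg]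
  rw [show (starRingEnd ℂ) 2 = 2 by exact Complex.conj_ofReal 2]
  ring

/-- `|e(x) - 1| ≥ 4 dist(x, ℤ)`. -/
lemma four_mul_le_norm (x δ : ℝ) (h : ∀ k : ℤ, δ ≤ |x - k|) : 4 * δ ≤ ‖ee x - 1‖ := by
  set y : ℝ := x - round x with hy
  have hy2 : |y| ≤ 1 / 2 := abs_sub_round x
  have hyd : δ ≤ |y| := h (round x)
  have hxy : ee x = ee y := by
    have : x = y + (round x : ℤ) := by rw [hy]; ring
    conv_lhs => rw [this]
    exact ee_add_int _ _
  have h1 : ‖ee y - 1‖ = ‖2 * Real.sin (2 * Real.pi * y / 2)‖ := by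
    rw [← Complex.norm_exp_I_mul_ofReal_sub_one]
    congr 2
    unfold ee
    congr 1
    push_cast; ring
  have h2 : 2 / Real.pi * |Real.pi * y| ≤ |Real.sin (Real.pi * y)| := by
    apply Real.mul_abs_le_abs_sin
    rw [abs_mul, abs_of_pos Real.pi_pos]
    have := Real.pi_pos
    nlinarith
  rw [hxy, h1, Real.norm_eq_abs, abs_mul, abs_two]
  have h3 : 2 * Real.pi * y / 2 = Real.pi * y := by ring
  rw [h3]
  have h4 : 2 / Real.pi * |Real.pi * y| = 2 * |y| := by
    rw [abs_mul, abs_of_pos Real.pi_pos]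
    field_simp
  rw [h4] at h2
  linarith

/-- Geometric sums. -/
lemma norm_sum_range_le (x δ : ℝ) (hδ : 0 < δ) (h : ∀ k : ℤ, δ ≤ |x - k|) (J : ℕ) :
    ‖∑ j ∈ range J, ee (j * x)‖ ≤ 1 / (2 * δ) := by
  have h4 := four_mul_le_norm x δ h
  have hne : ee x ≠ 1 := by
    intro h0
    rw [h0, sub_self, norm_zero] at h4
    linarith
  simp_rw [ee_nat_mul]
  rw [geom_sum_eq hne, norm_div]
  have hnum : ‖ee x ^ J - 1‖ ≤ 2 := by
    refine (norm_sub_le _ _).trans ?_
    rw [norm_pow, norm_ee, one_pow, norm_one]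
    norm_num
  rw [div_le_div_iff₀ (by linarith) (by linarith)]
  nlinarith [norm_nonneg (ee x ^ J - 1)]

/-- The integers in `(A,B]` congruent to `a` mod `R`, parametrised. -/
lemma filter_mod_eq (A B R a : ℕ) (hR : 0 < R) (hAB : A ≤ B) : ∃ n₀ J : ℕ,
    (Ioc A B).filter (fun n => n % R = a % R) = (range J).image (fun j => n₀ + R * j) ∧
    (J : ℝ) ≤ ((B:ℝ) - A) / R + 1 := by
  obtain ⟨r, hr⟩ : ∃ r, r = (a + R * (A + 1) - (A + 1)) % R := ⟨_, rfl⟩
  have hrlt : r < R := hr ▸ Nat.mod_lt _ hR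
  have hle : A + 1 ≤ R * (A + 1) := Nat.le_mul_of_pos_left _ hR
  have hmod : (A + 1 + r) % R = a % R := by
    have h1 : (A + 1 + r) ≡ (A + 1 + (a + R * (A + 1) - (A + 1))) [MOD R] := by
      apply Nat.ModEq.add_left
      rw [hr]
      exact Nat.mod_modEq _ _
    have h2 : A + 1 + (a + R * (A + 1) - (A + 1)) = a + R * (A + 1) := by omega
    rw [h2] at h1
    have h3 : a + R * (A + 1) ≡ a [MOD R] := by
      have := (Nat.modEq_zero_iff_dvd.mpr (Dvd.intro (A+1) rfl) : R * (A + 1) ≡ 0 [MOD R])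
      simpa only [add_zero] using Nat.ModEq.add_left a this
    exact h1.trans h3
  refine ⟨A + 1 + r, (B + R - (A + 1 + r)) / R, ?_, ?_⟩
  · ext n
    simp only [mem_filter, mem_Ioc, mem_image, mem_range]
    constructor
    · rintro ⟨⟨h1, h2⟩, h3⟩
      have h4 : n ≡ A + 1 + r [MOD R] := h3.trans hmod.symm
      have h5 : A + 1 + r ≤ n := by
        by_contra hlt
        push Not at hlt
        have h6 : R ∣ (A + 1 + r) - n := (Nat.modEq_iff_dvd' hlt.le).mp h4
        have h7 : (A + 1 + r) - n < R := by omega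
        have h8 := Nat.eq_zero_of_dvd_of_lt h6 h7
        omega
      obtain ⟨j, hj⟩ := (Nat.modEq_iff_dvd' h5).mp h4.symm
      refine ⟨j, ?_, by omega⟩
      rw [Nat.lt_iff_add_one_le, Nat.le_div_iff_mul_le hR]
      have : (j + 1) * R = R * j + R := by ring
      rw [this]
      omega
    · rintro ⟨j, hj, rfl⟩
      rw [Nat.lt_iff_add_one_le, Nat.le_div_iff_mul_le hR] at hj
      have h1 : (j + 1) * R = R * j + R := by ring
      rw [h1] at hj
      refine ⟨⟨by omega, by omega⟩, ?_⟩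
      rw [Nat.add_mul_mod_self_left]
      exact hmod
  · have h1 : (B + R - (A + 1 + r)) / R * R ≤ B + R - (A + 1 + r) := Nat.div_mul_le_self _ _
    have h2 : (B + R - (A + 1 + r)) / R * R ≤ B - A + R := by omega
    have h3 : (((B + R - (A + 1 + r)) / R : ℕ) : ℝ) * R ≤ (B:ℝ) - A + R := by
      have : (((B + R - (A + 1 + r)) / R : ℕ) : ℝ) * R ≤ ((B - A + R : ℕ) : ℝ) := by exact_mod_cast h2
      rw [Nat.cast_add, Nat.cast_sub hAB] at this
      exact this
    have hR0 : (0:ℝ) < R := by exact_mod_cast hR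
    have h4 : ((B:ℝ) - A) / R + 1 = ((B:ℝ) - A + R) / R := by field_simp
    rw [h4, le_div_iff₀ hR0]
    exact h3

/-- Exponential sums over progressions: bounded frequency. -/
lemma norm_sum_ap_le (P R a : ℕ) (hR : 0 < R) (s δ : ℝ) (hδ : 0 < δ) (h : ∀ k : ℤ, δ ≤ |R * s - k|) :
    ‖∑ n ∈ (Ioc P (2 * P)).filter (fun n => n % R = a % R), ee (n * s)‖ ≤ 1 / (2 * δ) := by
  obtain ⟨n₀, J, hF, _⟩ := filter_mod_eq P (2 * P) R a hR (by omega)
  rw [hF, Finset.sum_image]
  · have : ∀ j ∈ range J, ee (((n₀ + R * j : ℕ) : ℝ) * s) = ee (n₀ * s) * ee (j * (R * s)) := by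
      intro j _
      rw [← ee_add]
      congr 1
      push_cast; ring
    rw [Finset.sum_congr rfl this, ← Finset.mul_sum, norm_mul, norm_ee, one_mul]
    exact norm_sum_range_le _ δ hδ h J
  · intro i _ j _ hij
    simp only at hij
    have : R * i = R * j := by omega
    exact Nat.eq_of_mul_eq_mul_left hR this

/-- Exponential sums over progressions: trivial bound. -/
lemma norm_sum_ap_le_card (P R a : ℕ) (hR : 0 < R) (s : ℝ) :
    ‖∑ n ∈ (Ioc P (2 * P)).filter (fun n => n % R = a % R), ee (n * s)‖ ≤ P / R + 1 := by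
  obtain ⟨n₀, J, hF, hJ⟩ := filter_mod_eq P (2 * P) R a hR (by omega)
  refine (norm_sum_le _ _).trans ?_
  simp_rw [norm_ee]
  rw [Finset.sum_const, nsmul_eq_mul, mul_one, hF]
  have h1 : (((range J).image (fun j => n₀ + R * j)).card : ℝ) ≤ J := by
    exact_mod_cast (Finset.card_image_le).trans (by simp)
  refine h1.trans (hJ.trans (le_of_eq ?_))
  push_cast
  ring

end Pool.Agent.Majorant
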