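import Mathlib

set_option autoImplicit false

open Finset

namespace Pool.Agent.Majorant

/-- squarefree numbers up to `Q` without prime factors in `s`. -/
def SQ (s : Finset ℕ) (Q : ℕ) : Finset ℕ :=
  (Icc 1 Q).filter (fun q => Squarefree q ∧ ∀ p ∈ s, ¬ p ∣ q)

/-- the Selberg sum -/
noncomputable def GG (s : Finset ℕ) (Q : ℕ) : ℝ := ∑ q ∈ SQ s Q, 1 / (Nat.totient q : ℝ)

lemma mem_SQ {s : Finset ℕ} {Q q : ℕ} :
    q ∈ SQ s Q ↔ (1 ≤ q ∧ q ≤ Q) ∧ Squarefree q ∧ ∀ p ∈ s, ¬ p ∣ q := by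
  simp [SQ]

lemma totient_pos_of_mem {s : Finset ℕ} {Q q : ℕ} (h : q ∈ SQ s Q) : (0:ℝ) < (Nat.totient q : ℝ) := by
  exact_mod_cast Nat.totient_pos.2 (mem_SQ.1 h).1.1

/-- Numbers divisible by `p`. -/
lemma sum_dvd_le (s : Finset ℕ) (Q p : ℕ) (hp : p.Prime) :
    ∑ q ∈ (SQ s Q).filter (fun q => p ∣ q), 1 / (Nat.totient q : ℝ) ≤
      1 / ((p:ℝ) - 1) * ∑ q ∈ (SQ s Q).filter (fun q => ¬ p ∣ q), 1 / (Nat.totient q : ℝ) := by
  have hp2 : (2:ℝ) ≤ p := by exact_mod_cast hp.two_le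
  have key : ∀ q ∈ (SQ s Q).filter (fun q => p ∣ q), q / p ∈ (SQ s Q).filter (fun q => ¬ p ∣ q) ∧
      1 / (Nat.totient q : ℝ) = 1 / ((p:ℝ) - 1) * (1 / (Nat.totient (q / p) : ℝ)) := by
    intro q hq
    rw [mem_filter] at hq
    obtain ⟨hq1, l, rfl⟩ := hq
    obtain ⟨⟨h1, h2⟩, h3, h4⟩ := mem_SQ.1 hq1
    rw [Nat.mul_div_cancel_left _ hp.pos]
    have hl : 0 < l := Nat.pos_of_ne_zero (by rintro rfl; simp at h1)
    have hcop : Nat.Coprime p l := (Nat.squarefree_mul_iff.1 h3).1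
    refine ⟨?_, ?_⟩
    · rw [mem_filter, mem_SQ]
      refine ⟨⟨⟨hl, ?_⟩, (Nat.squarefree_mul_iff.1 h3).2.2, ?_⟩, ?_⟩
      · exact (Nat.le_mul_of_pos_left l hp.pos).trans h2
      · intro r hr hrl
        exact h4 r hr (hrl.trans (Dvd.intro_left _ rfl))
      · exact (Nat.Prime.coprime_iff_not_dvd hp).1 hcop
    · rw [Nat.totient_mul hcop, Nat.totient_prime hp]
      push_cast [Nat.cast_sub hp.one_le]
      rw [one_div_mul_one_div]
  rw [Finset.mul_sum]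
  calc ∑ q ∈ (SQ s Q).filter (fun q => p ∣ q), 1 / (Nat.totient q : ℝ)
      = ∑ q ∈ (SQ s Q).filter (fun q => p ∣ q),
          1 / ((p:ℝ) - 1) * (1 / (Nat.totient (q / p) : ℝ)) :=
        Finset.sum_congr rfl (fun q hq => (key q hq).2)
    _ = ∑ l ∈ ((SQ s Q).filter (fun q => p ∣ q)).image (fun q => q / p),
          1 / ((p:ℝ) - 1) * (1 / (Nat.totient l : ℝ)) := by
        rw [Finset.sum_image]
        intro a ha b hb hab
        have ha' := (mem_filter.1 ha).2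
        have hb' := (mem_filter.1 hb).2
        simp only at hab
        rw [← Nat.div_mul_cancel ha', ← Nat.div_mul_cancel hb', hab]
    _ ≤ _ := by
        apply Finset.sum_le_sum_of_subset_of_nonneg
        · intro l hl
          rw [mem_image] at hl
          obtain ⟨q, hq, rfl⟩ := hl
          exact (key q hq).1
        · intro l _ _
          have : (0:ℝ) < (p:ℝ) - 1 := by linarith
          positivity

lemma SQ_insert (s : Finset ℕ) (Q p : ℕ) :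
    SQ (insert p s) Q = (SQ s Q).filter (fun q => ¬ p ∣ q) := by
  ext q
  rw [mem_filter, mem_SQ, mem_SQ]
  constructor
  · rintro ⟨h1, h2, h3⟩
    exact ⟨⟨h1, h2, fun r hr => h3 r (mem_insert_of_mem hr)⟩, h3 p (mem_insert_self _ _)⟩
  · rintro ⟨⟨h1, h2, h3⟩, h4⟩
    refine ⟨h1, h2, fun r hr => ?_⟩
    rcases mem_insert.1 hr with rfl | hr
    · exact h4
    · exact h3 r hr

lemma GG_nonneg (s : Finset ℕ) (Q : ℕ) : 0 ≤ GG s Q := Finset.sum_nonneg (fun _ _ => by positivity)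

lemma GG_insert (s : Finset ℕ) (Q p : ℕ) (hp : p.Prime) :
    (1 - (p:ℝ)⁻¹) * GG s Q ≤ GG (insert p s) Q := by
  have hp2 : (2:ℝ) ≤ p := by exact_mod_cast hp.two_le
  have h1 : GG s Q = ∑ q ∈ (SQ s Q).filter (fun q => p ∣ q), 1 / (Nat.totient q : ℝ) +
      ∑ q ∈ (SQ s Q).filter (fun q => ¬ p ∣ q), 1 / (Nat.totient q : ℝ) := by
    unfold GG
    rw [Finset.sum_filter_add_sum_filter_not]
  have h2 : GG (insert p s) Q = ∑ q ∈ (SQ s Q).filter (fun q => ¬ p ∣ q), 1 / (Nat.totient q : ℝ) := by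
    unfold GG
    rw [SQ_insert]
  have h3 := sum_dvd_le s Q p hp
  rw [← h2] at h1 h3
  have h0 : 0 ≤ GG (insert p s) Q := GG_nonneg _ _
  have h4 : GG s Q ≤ (1 / ((p:ℝ) - 1) + 1) * GG (insert p s) Q := by
    rw [h1]; linarith
  have h5 : (1 - (p:ℝ)⁻¹) * (1 / ((p:ℝ) - 1) + 1) = 1 := by
    have h6 : (p:ℝ) - 1 ≠ 0 := by linarith
    have h7 : (p:ℝ) ≠ 0 := by linarith
    field_simp
    ring
  have h6 : 0 ≤ 1 - (p:ℝ)⁻¹ := by
    have : (p:ℝ)⁻¹ ≤ 1 := inv_le_one_of_one_le₀ (by linarith)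
    linarith
  calc (1 - (p:ℝ)⁻¹) * GG s Q ≤ (1 - (p:ℝ)⁻¹) * ((1 / ((p:ℝ) - 1) + 1) * GG (insert p s) Q) :=
        mul_le_mul_of_nonneg_left h4 h6
    _ = ((1 - (p:ℝ)⁻¹) * (1 / ((p:ℝ) - 1) + 1)) * GG (insert p s) Q := by ring
    _ = GG (insert p s) Q := by rw [h5, one_mul]

lemma GG_prod (s : Finset ℕ) (hs : ∀ p ∈ s, p.Prime) (Q : ℕ) :
    (∏ p ∈ s, (1 - (p:ℝ)⁻¹)) * GG ∅ Q ≤ GG s Q := by
  induction s using Finset.induction_on with
  | empty => simp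
  | insert p s hps ih =>
    have hp := hs p (mem_insert_self _ _)
    have h1 := ih (fun q hq => hs q (mem_insert_of_mem hq))
    have h6 : 0 ≤ 1 - (p:ℝ)⁻¹ := by
      have hp2 : (2:ℝ) ≤ p := by exact_mod_cast hp.two_le
      have : (p:ℝ)⁻¹ ≤ 1 := inv_le_one_of_one_le₀ (by linarith)
      linarith
    rw [Finset.prod_insert hps, mul_assoc]
    exact (mul_le_mul_of_nonneg_left h1 h6).trans (GG_insert s Q p hp)

lemma sum_inv_sq_le (Q : ℕ) : ∑ b ∈ Icc 1 Q, 1 / (b:ℝ) ^ 2 ≤ 2 := by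
  have key : ∀ Q : ℕ, ∑ b ∈ Icc 1 (Q + 1), 1 / (b:ℝ) ^ 2 ≤ 2 - 1 / ((Q:ℝ) + 1) := by
    intro Q
    induction Q with
    | zero => norm_num
    | succ Q ih =>
      rw [Finset.sum_Icc_succ_top (by omega)]
      have h1 : (0:ℝ) ≤ Q := Nat.cast_nonneg Q
      have h2 : 1 / ((Q:ℝ) + 1 + 1) ^ 2 ≤ 1 / ((Q:ℝ) + 1) - 1 / ((Q:ℝ) + 1 + 1) := by
        rw [div_sub_div _ _ (by positivity) (by positivity), div_le_div_iff₀ (by positivity) (by positivity)]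
        nlinarith
      push_cast
      linarith
  rcases Nat.eq_zero_or_pos Q with rfl | hQ
  · norm_num
  · obtain ⟨k, rfl⟩ : ∃ k, Q = k + 1 := ⟨Q - 1, by omega⟩
    have := key k
    have h1 : (0:ℝ) ≤ 1 / ((k:ℝ) + 1) := by positivity
    linarith

lemma log_le_sum (Q : ℕ) : Real.log Q ≤ ∑ m ∈ Icc 1 Q, 1 / (m:ℝ) := by
  rcases Nat.eq_zero_or_pos Q with rfl | hQ
  · simp
  · have h1 := log_add_one_le_harmonic Q
    have h2 : ((harmonic Q : ℚ) : ℝ) = ∑ m ∈ Icc 1 Q, 1 / (m:ℝ) := by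
      rw [harmonic_eq_sum_Icc]
      push_cast
      exact Finset.sum_congr rfl (fun m _ => by rw [one_div])
    rw [← h2]
    refine le_trans ?_ h1
    apply Real.log_le_log (by exact_mod_cast hQ)
    push_cast
    linarith

lemma sum_sq_free (Q : ℕ) : ∑ m ∈ Icc 1 Q, 1 / (m:ℝ) ≤ 2 * ∑ q ∈ SQ ∅ Q, 1 / (q:ℝ) := by
  have hex : ∀ m : ℕ, ∃ z : ℕ × ℕ, z.1 ^ 2 * z.2 = m ∧ Squarefree z.2 := by
    intro m
    obtain ⟨a, b, h1, h2⟩ := Nat.sq_mul_squarefree m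
    exact ⟨(b, a), h1, h2⟩
  choose z hz1 hz2 using hex
  have hmem : ∀ m ∈ Icc 1 Q, z m ∈ (Icc 1 Q) ×ˢ (SQ ∅ Q) := by
    intro m hm
    rw [mem_Icc] at hm
    have h1 := hz1 m
    have hb : 0 < (z m).1 := Nat.pos_of_ne_zero (by
      intro h0; rw [h0] at h1; simp at h1; omega)
    have ha : 0 < (z m).2 := Nat.pos_of_ne_zero (by
      intro h0; rw [h0] at h1; simp at h1; omega)
    rw [mem_product, mem_Icc, mem_SQ]
    refine ⟨⟨hb, ?_⟩, ⟨ha, ?_⟩, hz2 m, by simp⟩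
    · nlinarith
    · nlinarith [Nat.pow_pos (n := 2) hb]
  calc ∑ m ∈ Icc 1 Q, 1 / (m:ℝ)
      = ∑ m ∈ Icc 1 Q, (1 / ((z m).1:ℝ) ^ 2) * (1 / ((z m).2 : ℝ)) := by
        apply Finset.sum_congr rfl
        intro m _
        conv_lhs => rw [← hz1 m]
        push_cast
        rw [one_div_mul_one_div]
    _ = ∑ y ∈ (Icc 1 Q).image z, (1 / (y.1:ℝ) ^ 2) * (1 / (y.2 : ℝ)) := by
        rw [Finset.sum_image]
        intro a _ b _ hab
        rw [← hz1 a, ← hz1 b, hab]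
    _ ≤ ∑ y ∈ (Icc 1 Q) ×ˢ (SQ ∅ Q), (1 / (y.1:ℝ) ^ 2) * (1 / (y.2 : ℝ)) := by
        apply Finset.sum_le_sum_of_subset_of_nonneg
        · intro y hy
          obtain ⟨m, hm, rfl⟩ := mem_image.1 hy
          exact hmem m hm
        · intro y _ _
          positivity
    _ = (∑ b ∈ Icc 1 Q, 1 / (b:ℝ) ^ 2) * ∑ q ∈ SQ ∅ Q, 1 / (q:ℝ) := by
        rw [Finset.sum_mul_sum, Finset.sum_product]
    _ ≤ 2 * ∑ q ∈ SQ ∅ Q, 1 / (q:ℝ) := by
        apply mul_le_mul_of_nonneg_right (sum_inv_sq_le Q)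
        exact Finset.sum_nonneg (fun _ _ => by positivity)

lemma half_log_le (Q : ℕ) : 1 / 2 * Real.log Q ≤ GG ∅ Q := by
  have h1 := log_le_sum Q
  have h2 := sum_sq_free Q
  have h3 : ∑ q ∈ SQ ∅ Q, 1 / (q:ℝ) ≤ GG ∅ Q := by
    apply Finset.sum_le_sum
    intro q hq
    apply one_div_le_one_div_of_le (totient_pos_of_mem hq)
    exact_mod_cast Nat.totient_le q
  linarith

/-- Lower bound for the Selberg sum. -/
lemma GG_lower (R Q : ℕ) (hR : 0 < R) :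
    (Nat.totient R : ℝ) / R * (1 / 2 * Real.log Q) ≤ GG R.primeFactors Q := by
  have h1 := GG_prod R.primeFactors (fun p hp => Nat.prime_of_mem_primeFactors hp) Q
  have h2 : ((Nat.totient R : ℚ) : ℝ) = ((R:ℚ) * ∏ p ∈ R.primeFactors, (1 - (p:ℚ)⁻¹) : ℚ) := by
    rw [Nat.totient_eq_mul_prod_factors R]
  push_cast at h2
  have hR0 : (0:ℝ) < R := by exact_mod_cast hR
  have h3 : (Nat.totient R : ℝ) / R = ∏ p ∈ R.primeFactors, (1 - (p:ℝ)⁻¹) := by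
    rw [h2]; field_simp
  rw [h3]
  refine le_trans (mul_le_mul_of_nonneg_left (half_log_le Q) ?_) h1
  rw [← h3]; positivity

lemma one_le_GG (s : Finset ℕ) (hs : ∀ p ∈ s, p.Prime) (Q : ℕ) (hQ : 1 ≤ Q) : 1 ≤ GG s Q := by
  have h1 : (1:ℕ) ∈ SQ s Q := by
    rw [mem_SQ]
    refine ⟨⟨le_rfl, hQ⟩, squarefree_one, fun p hp h => ?_⟩
    exact (hs p hp).one_lt.ne' (Nat.dvd_one.1 h)
  have h2 := Finset.single_le_sum (f := fun q => 1 / (Nat.totient q : ℝ)) (fun _ _ => by positivity) h1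
  simpa [GG] using h2

end Pool.Agent.Majorant
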