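import Pool.Agent.Majorant.Core

set_option autoImplicit false

open Finset

namespace Pool.Agent.Majorant

/-- choice of the level -/
noncomputable def QQ (P : ℕ) : ℕ := ⌊(P:ℝ) ^ (1 / 12 : ℝ)⌋₊

lemma QQ_facts (P : ℕ) (hP : 2 ^ 24 ≤ P) :
    1 ≤ QQ P ∧ QQ P ≤ P ∧ ((QQ P : ℕ) : ℝ) ^ 6 ≤ (P:ℝ) ^ (1 / 2 : ℝ) ∧
      1 / 24 * Real.log P ≤ Real.log (QQ P) := by
  have hPr : (2:ℝ) ^ 24 ≤ P := by exact_mod_cast hP
  have hP0 : (0:ℝ) < P := lt_of_lt_of_le (by positivity) hPr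
  have hP1 : (1:ℝ) ≤ P := le_trans (by norm_num) hPr
  set u : ℝ := (P:ℝ) ^ (1 / 24 : ℝ) with hu
  have hu0 : 0 < u := Real.rpow_pos_of_pos hP0 _
  have hu2 : 2 ≤ u := by
    have h1 : ((2:ℝ) ^ 24) ^ (1 / 24 : ℝ) ≤ u := Real.rpow_le_rpow (by positivity) hPr (by norm_num)
    have h2 : ((2:ℝ) ^ 24) ^ (1 / 24 : ℝ) = 2 := by
      rw [← Real.rpow_natCast, ← Real.rpow_mul (by norm_num)]
      norm_num
    rwa [h2] at h1
  have hu12 : (P:ℝ) ^ (1 / 12 : ℝ) = u ^ 2 := by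
    rw [hu, ← Real.rpow_natCast, ← Real.rpow_mul hP0.le]
    norm_num
  have hQlt : u ^ 2 < (QQ P : ℝ) + 1 := by
    rw [← hu12]
    exact Nat.lt_floor_add_one _
  have hQle : (QQ P : ℝ) ≤ (P:ℝ) ^ (1 / 12 : ℝ) := Nat.floor_le (by positivity)
  have huQ : u ≤ QQ P := by nlinarith
  have hQ1 : 1 ≤ QQ P := by
    have : (1:ℝ) ≤ QQ P := by linarith
    exact_mod_cast this
  refine ⟨hQ1, ?_, ?_, ?_⟩
  · have h1 : (P:ℝ) ^ (1 / 12 : ℝ) ≤ (P:ℝ) ^ (1 : ℝ) :=
      Real.rpow_le_rpow_of_exponent_le hP1 (by norm_num)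
    rw [Real.rpow_one] at h1
    exact_mod_cast hQle.trans h1
  · calc ((QQ P : ℕ) : ℝ) ^ 6 ≤ ((P:ℝ) ^ (1 / 12 : ℝ)) ^ 6 := by
          apply pow_le_pow_left₀ (by positivity) hQle
      _ = (P:ℝ) ^ (1 / 2 : ℝ) := by
          rw [← Real.rpow_natCast, ← Real.rpow_mul hP0.le]
          norm_num
  · have h1 : Real.log u = 1 / 24 * Real.log P := by rw [hu, Real.log_rpow hP0]
    rw [← h1]
    exact Real.log_le_log hu0 huQ

lemma eventually_log (φ η : ℝ) (hφ : 0 < φ) (hη : 0 < η) :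
    ∀ᶠ P : ℕ in Filter.atTop, φ * Real.log P ≤ η * (P:ℝ) ^ (1 / 2 : ℝ) := by
  have h1 := (isLittleO_log_rpow_atTop (r := 1 / 2) (by norm_num)).def (show 0 < η / φ by positivity)
  have h2 := tendsto_natCast_atTop_atTop (R := ℝ) |>.eventually h1
  filter_upwards [h2, Filter.eventually_ge_atTop 1] with P hP hP1
  have hP1' : (1:ℝ) ≤ P := by exact_mod_cast hP1
  have hlog : 0 ≤ Real.log P := Real.log_nonneg hP1'
  rw [Real.norm_of_nonneg hlog, Real.norm_of_nonneg (by positivity)] at hP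
  calc φ * Real.log P ≤ φ * (η / φ * (P:ℝ) ^ (1 / 2 : ℝ)) := mul_le_mul_of_nonneg_left hP hφ.le
    _ = _ := by field_simp

theorem majorant : ∃ C2 : ℝ, 0 < C2 ∧ ∀ ε : ℝ, 0 < ε → ∃ w : ℕ, ∀ R : ℕ, 0 < R →
    (∀ p, p.Prime → p ≤ w → p ∣ R) →
    ∃ κ0 : ℝ, 0 < κ0 ∧ ∃ P0 : ℕ, ∀ P : ℕ, P0 ≤ P → ∃ ρ : ℕ → ℝ, (∀ n, 0 ≤ ρ n) ∧
      (∀ n, n.Prime → P < n → 1 ≤ ρ n) ∧
      ∀ a : ℕ, Nat.Coprime a R → ∀ t : ℝ,
        ‖∑ n ∈ (Finset.Ioc P (2 * P)).filter (fun n => n % R = a % R),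
            (ρ n : ℂ) * Complex.exp (2 * Real.pi * Complex.I * (n * t))‖ ≤
          C2 * P / (Nat.totient R * Real.log P) ∧
        ((∀ v : ℤ, κ0 / P ≤ |t - v / R|) →
          ‖∑ n ∈ (Finset.Ioc P (2 * P)).filter (fun n => n % R = a % R),
            (ρ n : ℂ) * Complex.exp (2 * Real.pi * Complex.I * (n * t))‖ ≤
          ε * P / (Nat.totient R * Real.log P)) := by
  refine ⟨97, by norm_num, fun ε hε => ?_⟩
  set m : ℕ := ⌈768 / ε⌉₊ + 1 with hm
  have hm0 : 0 < m := Nat.succ_pos _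
  have hm0' : (0:ℝ) < m := by exact_mod_cast hm0
  have hmε : 768 / ε ≤ m := by
    rw [hm]
    push_cast
    have := Nat.le_ceil (768 / ε)
    linarith
  refine ⟨m ^ 2, fun R hR hw => ?_⟩
  have hR0 : (0:ℝ) < R := by exact_mod_cast hR
  have hφ0 : (0:ℝ) < (Nat.totient R : ℝ) := by exact_mod_cast Nat.totient_pos.2 hR
  refine ⟨96 / ε, by positivity, ?_⟩
  set η : ℝ := min 1 (ε / 2) with hη
  have hη0 : 0 < η := by rw [hη]; positivity
  obtain ⟨P0, hP0⟩ := Filter.eventually_atTop.1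
    (((eventually_log _ η hφ0 hη0).and (Filter.eventually_ge_atTop (2 ^ 24))).and
      (Filter.eventually_ge_atTop R))
  refine ⟨P0, fun P hP => ?_⟩
  obtain ⟨⟨hlog, hP24⟩, hRP⟩ := hP0 P hP
  obtain ⟨hQ1, hQP, hQ6, hlogQ⟩ := QQ_facts P hP24
  have hPr : (2:ℝ) ^ 24 ≤ P := by exact_mod_cast hP24
  have hPpos : (0:ℝ) < P := lt_of_lt_of_le (by positivity) hPr
  have hP1 : (1:ℝ) < P := lt_of_lt_of_le (by norm_num) hPr
  have hL : 0 < Real.log P := Real.log_pos hP1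
  have hRP' : (R:ℝ) ≤ P := by exact_mod_cast hRP
  set Q := QQ P with hQ
  set G := GG R.primeFactors Q with hG
  have hG1 : 1 ≤ G := one_le_GG _ (fun p hp => Nat.prime_of_mem_primeFactors hp) Q hQ1
  have hG0 : 0 < G := by linarith
  have hGl : (Nat.totient R : ℝ) / R * (1 / 48 * Real.log P) ≤ G := by
    refine le_trans ?_ (GG_lower R Q hR)
    apply mul_le_mul_of_nonneg_left _ (by positivity)
    linarith
  -- basic quantity
  set Y : ℝ := P / (Nat.totient R * Real.log P) with hY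
  have hY0 : 0 < Y := by positivity
  have hdiv : ∀ c : ℝ, 0 ≤ c → (c * (P / R)) / G ≤ 48 * c * Y := by
    intro c hc
    rw [div_le_iff₀ hG0]
    have h1 : 48 * c * Y * ((Nat.totient R : ℝ) / R * (1 / 48 * Real.log P)) = c * (P / R) := by
      rw [hY]; field_simp
    calc c * (P / R) = 48 * c * Y * ((Nat.totient R : ℝ) / R * (1 / 48 * Real.log P)) := h1.symm
      _ ≤ 48 * c * Y * G := mul_le_mul_of_nonneg_left hGl (by positivity)
  have hQ6Y : (Q:ℝ) ^ 6 ≤ η * Y := by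
    refine hQ6.trans ?_
    rw [hY, ← mul_div_assoc, le_div_iff₀ (by positivity)]
    have h1 : (P:ℝ) ^ (1 / 2 : ℝ) * (P:ℝ) ^ (1 / 2 : ℝ) = P := by
      rw [← Real.rpow_add hPpos]; norm_num
    calc (P:ℝ) ^ (1 / 2 : ℝ) * (Nat.totient R * Real.log P)
        ≤ (P:ℝ) ^ (1 / 2 : ℝ) * (η * (P:ℝ) ^ (1 / 2 : ℝ)) :=
          mul_le_mul_of_nonneg_left hlog (by positivity)
      _ = η * ((P:ℝ) ^ (1 / 2 : ℝ) * (P:ℝ) ^ (1 / 2 : ℝ)) := by ring
      _ = η * P := by rw [h1]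
  have hPR : (P:ℝ) / R + 1 ≤ 2 * (P / R) := by
    have : 1 ≤ (P:ℝ) / R := by rw [one_le_div hR0]; exact hRP'
    linarith
  refine ⟨rho R.primeFactors Q, rho_nonneg _ _, fun n hn hPn => ?_, fun a _ t => ?_⟩
  · exact (rho_prime _ (fun p hp => Nat.prime_of_mem_primeFactors hp) Q n hQ1 hn
      (lt_of_le_of_lt hQP hPn)).ge
  have hconv : ∑ n ∈ (Finset.Ioc P (2 * P)).filter (fun n => n % R = a % R),
      (rho R.primeFactors Q n : ℂ) * Complex.exp (2 * Real.pi * Complex.I * (n * t)) =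
      ∑ n ∈ (Finset.Ioc P (2 * P)).filter (fun n => n % R = a % R),
      (rho R.primeFactors Q n : ℂ) * ee (n * t) := by
    apply Finset.sum_congr rfl
    intro n _
    congr 1
    unfold ee
    congr 1
    push_cast
    ring
  rw [hconv]
  have hred : ∀ B : ℝ, 0 ≤ B → (B * G) / G ^ 2 = B / G := by
    intro B _
    field_simp
  refine ⟨?_, fun hv => ?_⟩
  · have h1 := core (a := a) (P := P) hR hQ1 t _ (near_gen hR t)
    rw [← hG, hred _ (by positivity)] at h1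
    have h2 : ((P:ℝ) / R + 1) / G ≤ (2 * (P / R)) / G := by gcongr
    have h3 := hdiv 2 (by norm_num)
    have h4 : η * Y ≤ 1 * Y := mul_le_mul_of_nonneg_right (min_le_left _ _) hY0.le
    have h5 : 97 * (P:ℝ) / (Nat.totient R * Real.log P) = 97 * Y := by rw [hY]; ring
    rw [h5]
    linarith
  · have hE : ‖EE P R a t‖ ≤ 1 / (2 * (R * (96 / ε / P))) := by
      apply norm_sum_ap_le P R a hR t _ (by positivity)
      intro k
      have h6 := hv k
      have h7 : (R:ℝ) * t - k = R * (t - k / R) := by field_simp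
      rw [h7, abs_mul, abs_of_pos hR0]
      exact mul_le_mul_of_nonneg_left h6 hR0.le
    have h1 := core (a := a) (P := P) hR hQ1 t _ (near_ref hR t m hm0 hw _ hE)
    rw [← hG, hred _ (by positivity)] at h1
    have h8 : ((P:ℝ) / R + 1) * (2 / m) + 1 / (2 * (R * (96 / ε / P))) ≤ (ε / 96) * (P / R) := by
      have h9 : (2:ℝ) / m ≤ ε / 384 := by
        rw [div_le_div_iff₀ hm0' (by norm_num)]
        rw [div_le_iff₀ hε] at hmε
        linarith
      have h10 : ((P:ℝ) / R + 1) * (2 / m) ≤ (2 * (P / R)) * (ε / 384) :=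
        mul_le_mul hPR h9 (by positivity) (by positivity)
      have h11 : 1 / (2 * (R * (96 / ε / P))) = (ε / 192) * ((P:ℝ) / R) := by
        field_simp
        norm_num
      rw [h11]
      linarith
    have h2 : (((P:ℝ) / R + 1) * (2 / m) + 1 / (2 * (R * (96 / ε / P)))) / G ≤
        ((ε / 96) * (P / R)) / G := by gcongr
    have h3 := hdiv (ε / 96) (by positivity)
    have h4 : η * Y ≤ ε / 2 * Y := mul_le_mul_of_nonneg_right (min_le_right _ _) hY0.le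
    have h5 : ε * (P:ℝ) / (Nat.totient R * Real.log P) = ε * Y := by rw [hY]; ring
    rw [h5]
    linarith

end Pool.Agent.Majorant
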