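import Pool.Agent.Majorant.Ramanujan

set_option autoImplicit false

open Finset

namespace Pool.Agent.Majorant

/-- rational rigidity -/
lemma rat_rigid (R D B : ℕ) (A k : ℤ) (hD : 0 < D) (hDB : D ≤ B) (hcop : Nat.Coprime D R)
    (h : |(R:ℝ) * ((A:ℝ) / D) - k| < 1 / B) : ∃ j : ℤ, (A:ℝ) / D = j := by
  have hD0 : (0:ℝ) < D := by exact_mod_cast hD
  have hB0 : (0:ℝ) < B := by exact_mod_cast lt_of_lt_of_le hD hDB
  have hDB' : (D:ℝ) ≤ B := by exact_mod_cast hDB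
  have h1 : |(((R:ℤ) * A - k * D : ℤ) : ℝ)| < 1 := by
    have h2 : (((R:ℤ) * A - k * D : ℤ) : ℝ) = D * ((R:ℝ) * ((A:ℝ) / D) - k) := by
      push_cast; field_simp
    rw [h2, abs_mul, abs_of_pos hD0]
    calc (D:ℝ) * |(R:ℝ) * ((A:ℝ) / D) - k| < D * (1 / B) := mul_lt_mul_of_pos_left h hD0
      _ ≤ 1 := by rw [mul_one_div, div_le_one hB0]; exact hDB'
  have h2 : (R:ℤ) * A - k * D = 0 := by
    have h3 : |((R:ℤ) * A - k * D)| < 1 := by exact_mod_cast h1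
    exact Int.abs_lt_one_iff.1 h3
  have h3 : (D:ℤ) ∣ (R:ℤ) * A := ⟨k, by linarith⟩
  have h4 : (D:ℤ) ∣ A := (Nat.isCoprime_iff_coprime.2 hcop).dvd_of_dvd_mul_left h3
  obtain ⟨j, rfl⟩ := h4
  exact ⟨j, by push_cast; field_simp⟩

lemma coprime_of_mem {R Q q : ℕ} (h : q ∈ SQ R.primeFactors Q) (hR : 0 < R) : Nat.Coprime q R := by
  apply Nat.coprime_of_dvd
  intro p hp hpq hpR
  exact (mem_SQ.1 h).2.2 p (Nat.mem_primeFactors.2 ⟨hp, hpR, hR.ne'⟩) hpq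

lemma th_sub (x y : Σ _ : ℕ, ℕ) (hx : 0 < x.1) (hy : 0 < y.1) :
    th x - th y = (((x.2:ℤ) * y.1 - y.2 * x.1 : ℤ) : ℝ) / ((x.1 * y.1 : ℕ) : ℝ) := by
  have hx0 : (x.1:ℝ) ≠ 0 := by exact_mod_cast hx.ne'
  have hy0 : (y.1:ℝ) ≠ 0 := by exact_mod_cast hy.ne'
  unfold th
  push_cast
  field_simp

lemma pos_of_mem {s : Finset ℕ} {Q : ℕ} {x : Σ _ : ℕ, ℕ} (h : x ∈ XX s Q) : 0 < x.1 :=
  (mem_SQ.1 (mem_XX.1 h).1).1.1

lemma le_of_mem {s : Finset ℕ} {Q : ℕ} {x : Σ _ : ℕ, ℕ} (h : x ∈ XX s Q) : x.1 ≤ Q :=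
  (mem_SQ.1 (mem_XX.1 h).1).1.2

lemma th_mem {s : Finset ℕ} {Q : ℕ} {x : Σ _ : ℕ, ℕ} (h : x ∈ XX s Q) : 0 ≤ th x ∧ th x < 1 := by
  have h1 := pos_of_mem h
  have h2 := (mem_XX.1 h).2.1
  have h1' : (0:ℝ) < x.1 := by exact_mod_cast h1
  have h2' : (x.2:ℝ) < x.1 := by exact_mod_cast h2
  unfold th
  exact ⟨by positivity, by rw [div_lt_one h1']; exact h2'⟩

lemma th_inj {s : Finset ℕ} {Q : ℕ} {x y : Σ _ : ℕ, ℕ} (hx : x ∈ XX s Q) (hy : y ∈ XX s Q)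
    {j : ℤ} (h : th x - th y = j) : x = y := by
  have h1 := th_mem hx
  have h2 := th_mem hy
  have hj : j = 0 := by
    have h3 : (-1:ℝ) < j := by rw [← h]; linarith
    have h4 : (j:ℝ) < 1 := by rw [← h]; linarith
    have h5 : -1 < j := by exact_mod_cast h3
    have h6 : j < 1 := by exact_mod_cast h4
    omega
  have hx1 := pos_of_mem hx
  have hy1 := pos_of_mem hy
  have hx0 : (x.1:ℝ) ≠ 0 := by exact_mod_cast hx1.ne'
  have hy0 : (y.1:ℝ) ≠ 0 := by exact_mod_cast hy1.ne'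
  have h3 : (x.2:ℝ) * y.1 = y.2 * x.1 := by
    rw [hj, Int.cast_zero, sub_eq_zero] at h
    unfold th at h
    rwa [div_eq_div_iff hx0 hy0] at h
  have h4 : x.2 * y.1 = y.2 * x.1 := by exact_mod_cast h3
  have hcx := (mem_XX.1 hx).2.2
  have hcy := (mem_XX.1 hy).2.2
  have h5 : x.1 ∣ y.1 := by
    apply hcx.dvd_of_dvd_mul_left
    rw [h4]
    exact Dvd.intro_left _ rfl
  have h6 : y.1 ∣ x.1 := by
    apply hcy.dvd_of_dvd_mul_left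
    rw [← h4]
    exact Dvd.intro_left _ rfl
  have h7 : x.1 = y.1 := Nat.dvd_antisymm h5 h6
  have h8 : x.2 = y.2 := by
    rw [h7] at h4
    exact Nat.eq_of_mul_eq_mul_right hy1 h4
  obtain ⟨a, b⟩ := x
  obtain ⟨c, d⟩ := y
  simp only at h7 h8
  subst h7 h8
  rfl

/-- near pairs -/
def near (R Q : ℕ) (t : ℝ) (z : (Σ _ : ℕ, ℕ) × (Σ _ : ℕ, ℕ)) : Prop :=
  ∃ k : ℤ, |(R:ℝ) * (th z.1 - th z.2 + t) - k| < 1 / (2 * (Q:ℝ) ^ 4)

lemma near_diff {R Q : ℕ} (hR : 0 < R) {t : ℝ} {z z' : (Σ _ : ℕ, ℕ) × (Σ _ : ℕ, ℕ)}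
    (h1 : z.1 ∈ XX R.primeFactors Q) (h2 : z.2 ∈ XX R.primeFactors Q)
    (h1' : z'.1 ∈ XX R.primeFactors Q) (h2' : z'.2 ∈ XX R.primeFactors Q)
    (h : near R Q t z) (h' : near R Q t z') :
    ∃ j : ℤ, (th z.1 - th z.2) - (th z'.1 - th z'.2) = j := by
  obtain ⟨k, hk⟩ := h
  obtain ⟨k', hk'⟩ := h'
  have p1 := pos_of_mem h1
  have p2 := pos_of_mem h2
  have p1' := pos_of_mem h1'
  have p2' := pos_of_mem h2'
  set A : ℤ := ((z.1.2:ℤ) * z.2.1 - z.2.2 * z.1.1) * (z'.1.1 * z'.2.1) -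
    ((z'.1.2:ℤ) * z'.2.1 - z'.2.2 * z'.1.1) * (z.1.1 * z.2.1) with hA
  set D : ℕ := (z.1.1 * z.2.1) * (z'.1.1 * z'.2.1) with hD
  have hD0 : 0 < D := by positivity
  have heq : (th z.1 - th z.2) - (th z'.1 - th z'.2) = (A:ℝ) / D := by
    rw [th_sub _ _ p1 p2, th_sub _ _ p1' p2']
    have q1 : ((z.1.1 * z.2.1 : ℕ) : ℝ) ≠ 0 := by exact_mod_cast (Nat.mul_pos p1 p2).ne'
    have q2 : ((z'.1.1 * z'.2.1 : ℕ) : ℝ) ≠ 0 := by exact_mod_cast (Nat.mul_pos p1' p2').ne'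
    rw [div_sub_div _ _ q1 q2, hA, hD]
    push_cast
    congr 1
    ring
  have hDQ : D ≤ Q ^ 4 := by
    have e1 := le_of_mem h1
    have e2 := le_of_mem h2
    have e1' := le_of_mem h1'
    have e2' := le_of_mem h2'
    calc D ≤ (Q * Q) * (Q * Q) := Nat.mul_le_mul (Nat.mul_le_mul e1 e2) (Nat.mul_le_mul e1' e2')
      _ = Q ^ 4 := by ring
  have hcop : Nat.Coprime D R := by
    apply Nat.Coprime.mul_left
    · exact Nat.Coprime.mul_left (coprime_of_mem (mem_XX.1 h1).1 hR) (coprime_of_mem (mem_XX.1 h2).1 hR)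
    · exact Nat.Coprime.mul_left (coprime_of_mem (mem_XX.1 h1').1 hR) (coprime_of_mem (mem_XX.1 h2').1 hR)
  rw [heq]
  apply rat_rigid R D (Q ^ 4) A (k - k') hD0 hDQ hcop
  rw [← heq]
  have h3 : (R:ℝ) * ((th z.1 - th z.2) - (th z'.1 - th z'.2)) - ((k - k' : ℤ) : ℝ) =
      ((R:ℝ) * (th z.1 - th z.2 + t) - k) - ((R:ℝ) * (th z'.1 - th z'.2 + t) - k') := by
    push_cast; ring
  rw [h3]
  refine lt_of_le_of_lt (abs_sub _ _) ?_
  have hQ : (0:ℝ) < (Q:ℝ) ^ 4 := by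
    have : 0 < Q ^ 4 := lt_of_lt_of_le hD0 hDQ
    exact_mod_cast this
  have h4 : 1 / (2 * (Q:ℝ) ^ 4) + 1 / (2 * (Q:ℝ) ^ 4) = 1 / ((Q ^ 4 : ℕ) : ℝ) := by
    push_cast
    field_simp
    norm_num
  linarith

/-- Sums over a partial matching. -/
lemma sum_fst_le {ι : Type*} [DecidableEq ι] (X : Finset ι) (N : Finset (ι × ι)) (f : ι → ℝ)
    (hf : ∀ x ∈ X, 0 ≤ f x) (hN : ∀ z ∈ N, z.1 ∈ X) (hinj : ∀ z ∈ N, ∀ z' ∈ N, z.1 = z'.1 → z = z') :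
    ∑ z ∈ N, f z.1 ≤ ∑ x ∈ X, f x := by
  calc ∑ z ∈ N, f z.1 = ∑ x ∈ N.image Prod.fst, f x := by
        rw [Finset.sum_image (fun z hz z' hz' h => hinj z hz z' hz' h)]
    _ ≤ _ := by
        apply Finset.sum_le_sum_of_subset_of_nonneg
        · intro x hx
          obtain ⟨z, hz, rfl⟩ := mem_image.1 hx
          exact hN z hz
        · intro x hx _
          exact hf x hx

lemma sum_snd_le {ι : Type*} [DecidableEq ι] (X : Finset ι) (N : Finset (ι × ι)) (f : ι → ℝ)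
    (hf : ∀ x ∈ X, 0 ≤ f x) (hN : ∀ z ∈ N, z.2 ∈ X) (hinj : ∀ z ∈ N, ∀ z' ∈ N, z.2 = z'.2 → z = z') :
    ∑ z ∈ N, f z.2 ≤ ∑ x ∈ X, f x := by
  calc ∑ z ∈ N, f z.2 = ∑ x ∈ N.image Prod.snd, f x := by
        rw [Finset.sum_image (fun z hz z' hz' h => hinj z hz z' hz' h)]
    _ ≤ _ := by
        apply Finset.sum_le_sum_of_subset_of_nonneg
        · intro x hx
          obtain ⟨z, hz, rfl⟩ := mem_image.1 hx
          exact hN z hz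
        · intro x hx _
          exact hf x hx

/-- AM-GM over a matching. -/
lemma sum_mul_le {ι : Type*} [DecidableEq ι] (X : Finset ι) (N : Finset (ι × ι)) (γ : ι → ℝ)
    (hN1 : ∀ z ∈ N, z.1 ∈ X) (hN2 : ∀ z ∈ N, z.2 ∈ X)
    (hinj1 : ∀ z ∈ N, ∀ z' ∈ N, z.1 = z'.1 → z = z')
    (hinj2 : ∀ z ∈ N, ∀ z' ∈ N, z.2 = z'.2 → z = z') :
    ∑ z ∈ N, γ z.1 * γ z.2 ≤ ∑ x ∈ X, γ x ^ 2 := by
  have h1 := sum_fst_le X N (fun x => γ x ^ 2) (fun _ _ => sq_nonneg _) hN1 hinj1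
  have h2 := sum_snd_le X N (fun x => γ x ^ 2) (fun _ _ => sq_nonneg _) hN2 hinj2
  calc ∑ z ∈ N, γ z.1 * γ z.2 ≤ ∑ z ∈ N, (1 / 2 * γ z.1 ^ 2 + 1 / 2 * γ z.2 ^ 2) := by
        apply Finset.sum_le_sum
        intro z _
        nlinarith [sq_nonneg (γ z.1 - γ z.2)]
    _ = 1 / 2 * ∑ z ∈ N, γ z.1 ^ 2 + 1 / 2 * ∑ z ∈ N, γ z.2 ^ 2 := by
        rw [Finset.sum_add_distrib, Finset.mul_sum, Finset.mul_sum]
    _ ≤ _ := by linarith

/-- weighted AM-GM over a matching. -/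
lemma sum_mul_le' {ι : Type*} [DecidableEq ι] (X : Finset ι) (N : Finset (ι × ι)) (γ : ι → ℝ)
    (hN1 : ∀ z ∈ N, z.1 ∈ X) (hN2 : ∀ z ∈ N, z.2 ∈ X)
    (hinj1 : ∀ z ∈ N, ∀ z' ∈ N, z.1 = z'.1 → z = z')
    (hinj2 : ∀ z ∈ N, ∀ z' ∈ N, z.2 = z'.2 → z = z')
    (D : ι → Prop) [DecidablePred D] (hD : ∀ z ∈ N, D z.1 ∨ D z.2) (m : ℝ) (hm : 0 < m) :
    ∑ z ∈ N, γ z.1 * γ z.2 ≤ m * ∑ x ∈ X.filter D, γ x ^ 2 + 1 / m * ∑ x ∈ X, γ x ^ 2 := by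
  classical
  have h1 := sum_fst_le X N (fun x => γ x ^ 2) (fun _ _ => sq_nonneg _) hN1 hinj1
  have h2 := sum_snd_le X N (fun x => γ x ^ 2) (fun _ _ => sq_nonneg _) hN2 hinj2
  have hf0 : ∀ x ∈ X, 0 ≤ (if D x then γ x ^ 2 else 0) := by
    intro x _
    split_ifs
    · exact sq_nonneg _
    · exact le_rfl
  have h3 := sum_fst_le X N (fun x => if D x then γ x ^ 2 else 0) hf0 hN1 hinj1
  have h4 := sum_snd_le X N (fun x => if D x then γ x ^ 2 else 0) hf0 hN2 hinj2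
  have hDs : ∑ x ∈ X, (if D x then γ x ^ 2 else 0) = ∑ x ∈ X.filter D, γ x ^ 2 := by
    rw [Finset.sum_filter]
  rw [hDs] at h3 h4
  have key : ∀ a b : ℝ, a * b ≤ m / 2 * a ^ 2 + 1 / (2 * m) * b ^ 2 := by
    intro a b
    have h5 : m / 2 * a ^ 2 + 1 / (2 * m) * b ^ 2 - a * b = 1 / (2 * m) * (m * a - b) ^ 2 := by
      field_simp
      ring
    have h6 : 0 ≤ 1 / (2 * m) * (m * a - b) ^ 2 := by positivity
    linarith
  have hm2 : 0 < 1 / (2 * m) := by positivity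
  calc ∑ z ∈ N, γ z.1 * γ z.2
      ≤ ∑ z ∈ N, ((m / 2 * (if D z.1 then γ z.1 ^ 2 else 0) + m / 2 * (if D z.2 then γ z.2 ^ 2 else 0)) +
          (1 / (2 * m) * γ z.1 ^ 2 + 1 / (2 * m) * γ z.2 ^ 2)) := by
        apply Finset.sum_le_sum
        intro z hz
        have e1 : 0 ≤ 1 / (2 * m) * γ z.1 ^ 2 := by positivity
        have e2 : 0 ≤ 1 / (2 * m) * γ z.2 ^ 2 := by positivity
        have e3 : 0 ≤ m / 2 * (if D z.1 then γ z.1 ^ 2 else 0) := by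
          split_ifs <;> positivity
        have e4 : 0 ≤ m / 2 * (if D z.2 then γ z.2 ^ 2 else 0) := by
          split_ifs <;> positivity
        rcases hD z hz with h | h
        · rw [if_pos h] at e3 ⊢
          have := key (γ z.1) (γ z.2)
          linarith
        · rw [if_pos h] at e4 ⊢
          have := key (γ z.2) (γ z.1)
          linarith
    _ = (m / 2 * ∑ z ∈ N, (if D z.1 then γ z.1 ^ 2 else 0) +
          m / 2 * ∑ z ∈ N, (if D z.2 then γ z.2 ^ 2 else 0)) +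
          (1 / (2 * m) * ∑ z ∈ N, γ z.1 ^ 2 + 1 / (2 * m) * ∑ z ∈ N, γ z.2 ^ 2) := by
        rw [Finset.sum_add_distrib, Finset.sum_add_distrib, Finset.sum_add_distrib,
          Finset.mul_sum, Finset.mul_sum, Finset.mul_sum, Finset.mul_sum]
    _ ≤ (m / 2 * ∑ x ∈ X.filter D, γ x ^ 2 + m / 2 * ∑ x ∈ X.filter D, γ x ^ 2) +
          (1 / (2 * m) * ∑ x ∈ X, γ x ^ 2 + 1 / (2 * m) * ∑ x ∈ X, γ x ^ 2) := by
        have hm3 : 0 < m / 2 := by positivity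
        gcongr
    _ = _ := by
        field_simp
        ring

end Pool.Agent.Majorant
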