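import Pool.Agent.Majorant.Exp
import Pool.Agent.Majorant.GSum

set_option autoImplicit false

open Finset

namespace Pool.Agent.Majorant

/-- Möbius sum over divisors. -/
lemma sum_moebius (n : ℕ) (_hn : 0 < n) :
    ∑ d ∈ n.divisors, (ArithmeticFunction.moebius d : ℂ) = if n = 1 then 1 else 0 := by
  have h1 : (ArithmeticFunction.moebius * (ArithmeticFunction.zeta : ArithmeticFunction ℤ)) n =
      (1 : ArithmeticFunction ℤ) n := by
    rw [ArithmeticFunction.moebius_mul_coe_zeta]
  rw [ArithmeticFunction.coe_mul_zeta_apply, ArithmeticFunction.one_apply] at h1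
  have h2 := congrArg (fun z : ℤ => (z : ℂ)) h1
  push_cast at h2
  exact h2

/-- complete exponential sum -/
lemma sum_range_ee (l n : ℕ) (hl : 0 < l) (h : l = 1 ∨ ¬ l ∣ n) :
    ∑ b ∈ range l, ee (n * (b / l)) = if l = 1 then 1 else 0 := by
  have hl0 : (l:ℝ) ≠ 0 := by exact_mod_cast hl.ne'
  by_cases h1 : l = 1
  · subst h1
    simp [ee_zero]
  · rw [if_neg h1]
    have hnd : ¬ l ∣ n := by
      rcases h with h | h
      · exact absurd h h1
      · exact h
    have h2 : ∀ b ∈ range l, ee (n * (b / l)) = ee (n / l) ^ b := by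
      intro b _
      rw [← ee_nat_mul]
      congr 1
      ring
    rw [Finset.sum_congr rfl h2]
    have hne : ee ((n:ℝ) / l) ≠ 1 := by
      intro h0
      unfold ee at h0
      rw [Complex.exp_eq_one_iff] at h0
      obtain ⟨k, hk⟩ := h0
      have h3 : (2 * (Real.pi:ℂ) * Complex.I) ≠ 0 := Complex.two_pi_I_ne_zero
      have h4 : (((n:ℝ) / l : ℝ) : ℂ) = k := by
        apply mul_left_cancel₀ h3
        rw [← sub_eq_zero]
        have : (2 * (Real.pi:ℂ) * ((n:ℝ) / l : ℝ) * Complex.I) = k * (2 * Real.pi * Complex.I) := hk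
        linear_combination this
      have h5 : ((n:ℝ) / l) = (k : ℝ) := by exact_mod_cast h4
      rw [div_eq_iff hl0] at h5
      have h6 : (n:ℤ) = k * l := by exact_mod_cast h5
      apply hnd
      have h7 : (l:ℤ) ∣ n := Dvd.intro_left k h6.symm
      exact_mod_cast h7
    rw [geom_sum_eq hne]
    have h3 : ee ((n:ℝ) / l) ^ l = 1 := by
      rw [← ee_nat_mul]
      have : (l:ℝ) * ((n:ℝ) / l) = ((n:ℤ):ℝ) := by field_simp; simp
      rw [this]
      exact ee_int _
    rw [h3, sub_self, zero_div]

/-- Ramanujan sums at coprime arguments. -/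
lemma ramanujan (q n : ℕ) (hq : 0 < q) (h : Nat.Coprime n q) :
    ∑ a ∈ (range q).filter (fun a => q.Coprime a), ee (n * (a / q)) =
      (ArithmeticFunction.moebius q : ℂ) := by
  have hq0 : (q:ℝ) ≠ 0 := by exact_mod_cast hq.ne'
  calc ∑ a ∈ (range q).filter (fun a => q.Coprime a), ee (n * (a / q))
      = ∑ a ∈ range q, (if Nat.gcd q a = 1 then 1 else 0) * ee (n * (a / q)) := by
        rw [Finset.sum_filter]
        apply Finset.sum_congr rfl
        intro a _
        by_cases hc : Nat.Coprime q a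
        · simp [hc]
        · simp [hc]
    _ = ∑ a ∈ range q, ∑ d ∈ q.divisors.filter (fun d => d ∣ a),
          (ArithmeticFunction.moebius d : ℂ) * ee (n * (a / q)) := by
        apply Finset.sum_congr rfl
        intro a _
        rw [← sum_moebius _ (Nat.gcd_pos_of_pos_left a hq), ← Finset.sum_mul]
        congr 1
        apply Finset.sum_congr _ (fun _ _ => rfl)
        ext d
        rw [mem_filter, Nat.mem_divisors, Nat.mem_divisors, Nat.dvd_gcd_iff]
        have h1 : Nat.gcd q a ≠ 0 := (Nat.gcd_pos_of_pos_left a hq).ne'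
        have h2 : q ≠ 0 := hq.ne'
        tauto
    _ = ∑ d ∈ q.divisors, ∑ a ∈ (range q).filter (fun a => d ∣ a),
          (ArithmeticFunction.moebius d : ℂ) * ee (n * (a / q)) := by
        simp_rw [Finset.sum_filter]
        exact Finset.sum_comm
    _ = ∑ d ∈ q.divisors, (ArithmeticFunction.moebius d : ℂ) * (if q / d = 1 then 1 else 0) := by
        apply Finset.sum_congr rfl
        intro d hd
        obtain ⟨⟨l, hl⟩, _⟩ := Nat.mem_divisors.1 hd
        have hd0 : 0 < d := Nat.pos_of_ne_zero (by rintro rfl; simp at hl; omega)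
        have hl0 : 0 < l := Nat.pos_of_ne_zero (by rintro rfl; simp at hl; omega)
        have hdiv : q / d = l := by rw [hl]; exact Nat.mul_div_cancel_left l hd0
        rw [hdiv, ← Finset.mul_sum]
        congr 1
        have hd0' : (d:ℝ) ≠ 0 := by exact_mod_cast hd0.ne'
        have hl0' : (l:ℝ) ≠ 0 := by exact_mod_cast hl0.ne'
        have himg : (range q).filter (fun a => d ∣ a) = (range l).image (fun b => d * b) := by
          ext a
          rw [mem_filter, mem_range, mem_image]
          constructor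
          · rintro ⟨h1, b, rfl⟩
            refine ⟨b, ?_, rfl⟩
            rw [mem_range]
            rw [hl] at h1
            exact Nat.lt_of_mul_lt_mul_left h1
          · rintro ⟨b, hb, rfl⟩
            rw [mem_range] at hb
            refine ⟨?_, Dvd.intro b rfl⟩
            rw [hl]
            exact Nat.mul_lt_mul_of_pos_left hb hd0
        rw [himg, Finset.sum_image (fun a _ b _ hab => Nat.eq_of_mul_eq_mul_left hd0 hab)]
        have h1 : ∀ b ∈ range l, ee (n * (((d * b : ℕ) : ℝ) / q)) = ee (n * (b / l)) := by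
          intro b _
          congr 1
          rw [hl]
          push_cast
          field_simp
        rw [Finset.sum_congr rfl h1]
        apply sum_range_ee l n hl0
        by_cases hl1 : l = 1
        · exact Or.inl hl1
        · right
          intro hln
          have h2 : l ∣ q := by rw [hl]; exact Dvd.intro_left d rfl
          have h3 : l ∣ Nat.gcd n q := Nat.dvd_gcd hln h2
          have h4 : Nat.gcd n q = 1 := h
          rw [h4, Nat.dvd_one] at h3
          exact hl1 h3
    _ = (ArithmeticFunction.moebius q : ℂ) := by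
        rw [Finset.sum_eq_single q]
        · rw [Nat.div_self hq]; simp
        · intro d hd hdq
          obtain ⟨⟨l, hl⟩, _⟩ := Nat.mem_divisors.1 hd
          have hd0 : 0 < d := Nat.pos_of_ne_zero (by rintro rfl; simp at hl; omega)
          have hdiv : q / d = l := by rw [hl]; exact Nat.mul_div_cancel_left l hd0
          rw [hdiv, if_neg, mul_zero]
          rintro rfl
          exact hdq (by rw [hl, mul_one])
        · intro hc
          exact absurd (Nat.mem_divisors_self q hq.ne') hc

/-- frequencies -/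
def XX (s : Finset ℕ) (Q : ℕ) : Finset (Σ _ : ℕ, ℕ) :=
  (SQ s Q).sigma (fun q => (range q).filter (fun a => q.Coprime a))

/-- the frequency -/
noncomputable def th (x : Σ _ : ℕ, ℕ) : ℝ := (x.2 : ℝ) / x.1

/-- the weight -/
noncomputable def gm (x : Σ _ : ℕ, ℕ) : ℝ :=
  (ArithmeticFunction.moebius x.1 : ℝ) / (Nat.totient x.1 : ℝ)

/-- the trigonometric polynomial -/
noncomputable def HH (s : Finset ℕ) (Q n : ℕ) : ℂ := ∑ x ∈ XX s Q, (gm x : ℂ) * ee (n * th x)

/-- the majorant -/
noncomputable def rho (s : Finset ℕ) (Q n : ℕ) : ℝ := ‖HH s Q n‖ ^ 2 / (GG s Q) ^ 2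

lemma rho_nonneg (s : Finset ℕ) (Q n : ℕ) : 0 ≤ rho s Q n := by unfold rho; positivity

lemma mem_XX {s : Finset ℕ} {Q : ℕ} {x : Σ _ : ℕ, ℕ} :
    x ∈ XX s Q ↔ x.1 ∈ SQ s Q ∧ x.2 < x.1 ∧ Nat.Coprime x.1 x.2 := by
  unfold XX
  rw [mem_sigma, mem_filter, mem_range]

lemma HH_eq (s : Finset ℕ) (Q n : ℕ) (h : ∀ q ∈ SQ s Q, Nat.Coprime n q) :
    HH s Q n = (GG s Q : ℂ) := by
  unfold HH XX GG
  rw [Finset.sum_sigma]
  push_cast
  apply Finset.sum_congr rfl
  intro q hq
  have hq1 := (mem_SQ.1 hq).1.1
  have h1 : ∀ a ∈ (range q).filter (fun a => q.Coprime a),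
      ((gm ⟨q, a⟩ : ℝ) : ℂ) * ee (n * th ⟨q, a⟩) =
        ((ArithmeticFunction.moebius q : ℂ) / (Nat.totient q : ℂ)) * ee (n * (a / q)) := by
    intro a _
    unfold gm th
    push_cast
    rfl
  rw [Finset.sum_congr rfl h1, ← Finset.mul_sum, ramanujan q n hq1 (h q hq)]
  have h2 : ArithmeticFunction.moebius q ^ 2 = 1 :=
    ArithmeticFunction.moebius_sq_eq_one_of_squarefree (mem_SQ.1 hq).2.1
  have h3 : (ArithmeticFunction.moebius q : ℂ) ^ 2 = 1 := by exact_mod_cast h2
  rw [div_mul_eq_mul_div, ← sq, h3]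

lemma rho_prime (s : Finset ℕ) (hs : ∀ p ∈ s, p.Prime) (Q n : ℕ) (hQ : 1 ≤ Q) (hn : n.Prime)
    (hQn : Q < n) : rho s Q n = 1 := by
  have h1 : HH s Q n = (GG s Q : ℂ) := by
    apply HH_eq
    intro q hq
    have h2 := (mem_SQ.1 hq).1
    rw [Nat.Prime.coprime_iff_not_dvd hn]
    intro hd
    have := Nat.le_of_dvd h2.1 hd
    omega
  unfold rho
  have h2 := one_le_GG s hs Q hQ
  rw [h1, Complex.norm_real, Real.norm_eq_abs, sq_abs]
  exact div_self (by positivity)

end Pool.Agent.Majorant
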